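import Mathlib
import Pool.Agent.BSH.Defs

set_option autoImplicit false

/-! Definitions of the squad BSI (identity test for all circuits, one level with many exponents). -/

namespace Pool.Agent.BSI

open MvPolynomial Pool.Agent.Helper78_ACIT Pool.Agent.BSH

/-- The numbers `a_mj = (m + 1) ^ j`. -/
def va (E : Type) [Field E] (m j : ℕ) : E := ((m : E) + 1) ^ j

/-- The generator: `4 r` seeds `t_m` are followed by `C` groups of `r` values: the value `j` of the
group `c` is `∑ m < 4 r, (m + 1) ^ j t_m ^ (2 ^ (q (c + 1)) + 1)`. -/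
def pt {A : Type} [CommRing A] (r q C : ℕ) (t : ℕ → A) (i : ℕ) : A :=
  if i < 4 * r then t i
  else if i < 4 * r + r * C then
    ∑ m ∈ Finset.range (4 * r), ((m : A) + 1) ^ ((i - 4 * r) % r) *
      t m ^ (2 ^ (q * ((i - 4 * r) / r + 1)) + 1)
  else 0

/-- The powers `t_m ^ (b ^ j)`, `m < k`, `j ≤ c`. -/
def pw (E : Type) [Field E] (k b c : ℕ) : Set (MvPolynomial ℕ E) :=
  {x | ∃ m < k, ∃ j ≤ c, x = X m ^ b ^ j}

/-- The base space: linear combinations of `1`, `x_0, ..., x_(k+r-1)` and of the powers
`x_m ^ (b ^ j)`, `m < k`, `j ≤ c`. -/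
noncomputable def W0 (E : Type) [Field E] (k r b c : ℕ) : Submodule E (MvPolynomial ℕ E) :=
  sp E (vs E (k + r) ∪ pw E k b c) []

/-- The substitution of stage `c`: the groups before `c` are replaced by the generator, the variables
of the group `c` by `x_k, ..., x_(k+r-1)`, the later variables by the numbers `e_i`. -/
noncomputable def stg {E : Type} [Field E] (k r b c : ℕ) (a : ℕ → ℕ → E) (e : ℕ → E) :
    MvPolynomial ℕ E →ₐ[E] MvPolynomial ℕ E :=
  aeval fun i =>
    if i < k then X i
    else if i < k + r * c then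
      ∑ m ∈ Finset.range k, C (a m ((i - k) % r)) * X m ^ (b ^ ((i - k) / r + 1) + 1)
    else if i < k + r * (c + 1) then X (k + (i - (k + r * c)))
    else C (e i)

/-- The point of stage `c` with numbers: the groups before `c` are given by the generator, all later
variables are the numbers `e_i`. -/
noncomputable def mix {E : Type} [Field E] (k r b c : ℕ) (a : ℕ → ℕ → E) (e : ℕ → E) :
    MvPolynomial ℕ E →ₐ[E] MvPolynomial ℕ E :=
  aeval fun i =>
    if i < k then X i
    else if i < k + r * c then
      ∑ m ∈ Finset.range k, C (a m ((i - k) % r)) * X m ^ (b ^ ((i - k) / r + 1) + 1)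
    else C (e i)

/-- The gradient of `H` is computed from `x_0, ..., x_(k+r-1)`, the powers `x_m ^ (b ^ j)`, `j ≤ c`, and
at most `r c` linear combinations of products of two powers, with at most `S` products. -/
def GradCheap (E : Type) [Field E] (k r b c S : ℕ) (H : MvPolynomial ℕ E) : Prop :=
  ∃ L l : List (MvPolynomial ℕ E), L.length ≤ r * c ∧
    (∀ u ∈ L, u ∈ (sp E (pw E k b c) []) ^ 2) ∧ l.length ≤ S ∧
    Ch E (vs E (k + r) ∪ pw E k b c ∪ {x | x ∈ L}) l ∧
    ∀ i < k + r, pderiv i H ∈ sp E (vs E (k + r) ∪ pw E k b c ∪ {x | x ∈ L}) l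

/-- The value of the circuit `G` modulo `p` at the point of the generator with the seeds `ξ`. -/
def tval (r q C p N : ℕ) (ξ : Fin (4 * r) → Fin N) (G : List Gate) : ZMod p :=
  out (pt r q C (ext fun j => ((ξ j : ℕ) : ZMod p))) G

end Pool.Agent.BSI
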