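import Mathlib
import Pool.Agent.BSI.Defs
import Pool.Agent.BSH.Stmts

set_option autoImplicit false

/-! Statements of the rows of the squad BSI (MP_b2b50d_lc, notes 3623 and 3632): identity test for ALL
circuits, `2 ^ O(g ^ (3/2))` points for `g` gates.  The rows BST, HIL, IND, LOW, BIN, LIM, CHR, MAP, CIR
of `Pool.Agent.BSH.Stmts` are used. -/

namespace Pool.Agent.BSI

open MvPolynomial Pool.Agent.Helper78_ACIT Pool.Agent.BSH

/-- Row ADJ. One more element `g ∈ W ^ δ` multiplies the dimension of `W ^ D` by at most `δ`.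

Proof. HIL (`BSH.HilStmt`), and `W ^ (D - i) ≤ W ^ D` since `1 ∈ W` (all spaces are finite dimensional:
`Submodule.FG.pow`). -/
def AdjStmt : Prop :=
  ∀ (E A : Type) [Field E] [CommRing A] [IsDomain A] [Algebra E A] (W : Submodule E A) (g : A)
    (δ D : ℕ), Module.Finite E W → (1 : A) ∈ W → 1 ≤ δ → g ∈ W ^ δ →
    Module.finrank E ((W ⊔ Submodule.span E {g}) ^ D : Submodule E A) ≤
      δ * Module.finrank E (W ^ D : Submodule E A)

/-- Row HB0. The Hilbert function of the base space with the powers `x_m ^ (b ^ j)`.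

Proof. `BSH.HbdStmt` with `L1 = l = []` bounds the dimension of `(sp E (vs E (k + r)) []) ^ N` by
`C(N + k + r, k + r)`. Then adjoin for each `m < k` the powers `x_m ^ (b ^ j)`, `j = 1, ..., c`, one after
the other: `x_m ^ (b ^ (j + 1)) = (x_m ^ (b ^ j)) ^ b` lies in `W ^ b`, a factor `b` each (ADJ). -/
def Hb0Stmt : Prop :=
  ∀ (E : Type) [Field E] (k r b c N : ℕ), 1 ≤ b →
    Module.finrank E ((W0 E k r b c) ^ N : Submodule E (MvPolynomial ℕ E)) ≤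
      (b ^ c) ^ k * (N + (k + r)).choose (k + r)

/-- Row HB2. Adjoin to the base the elements of `L` (in the square of the base space), of `M` (in its
power `δ`) and the products `l`.

Proof. ADJ for each element: factors `2`, `δ` and `2` (`g = a * b` with `a`, `b` in the space reached
before lies in its square; the base space is contained in all later spaces, so are its powers). `sp E B l`
is the span of a set: adding an element to `B` or to `l` is `⊔ span {g}` (`Submodule.span_union`,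
`Submodule.span_insert`). -/
def Hb2Stmt : Prop :=
  ∀ (E A : Type) [Field E] [CommRing A] [IsDomain A] [Algebra E A] (B : Set A) (L M l : List A)
    (δ D : ℕ), Module.Finite E (sp E B []) → 1 ≤ δ →
    (∀ u ∈ L, u ∈ (sp E B []) ^ 2) → (∀ u ∈ M, u ∈ (sp E B []) ^ δ) →
    Ch E (B ∪ {x | x ∈ L} ∪ {x | x ∈ M}) l →
    Module.finrank E ((sp E (B ∪ {x | x ∈ L} ∪ {x | x ∈ M}) l) ^ D : Submodule E A) ≤
      2 ^ (L.length + l.length) * δ ^ M.length *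
        Module.finrank E ((sp E B []) ^ D : Submodule E A)

/-- Row FM2 (the independent family, with digits). As `BSH.FamStmt` (see `FAM` of the squad BSH), with
`d = b ^ (c + 1) + 1`, `d - 1 = b ^ (c + 1)`, and the powers `x_m ^ (b ^ j)`, `j ≤ c`, in `W`.

Proof. LOW, IND as in FAM, `Θ = th E k r`, `wt β = ∑ j < r, β (k + j)`, `M = (number of good i) D0 M_0`,
`Ψ = (∏ i good, ζ_i) ^ D0`, `c β = ∏ i good, (-d) ^ (β i / b ^ (c + 1))`; `Ω` is the set of the `β` with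
support in `{0..k+r-1}`, `β i < b ^ (c + 1) (D0 + 1)` for good `i < k`, `β i < b ^ c (D0 + 1)` for bad
`i < k`, `β i < D0 + 1` for `k ≤ i < k + r`;
`b β = ∏ i good, y_i ^ (β i / b ^ (c+1)) z_i ^ (D0 - β i / b ^ (c+1)) x_i ^ (β i % b ^ (c+1))
  ∏ i other, x_i ^ (β i)`.
A power `x_i ^ n`, `i < k`, `n < b ^ (c + 1)`, is a product of at most `(c + 1) (b - 1)` of the elements
`x_i ^ (b ^ j)`, `j ≤ c` (digits); a power with `n < b ^ c (D0 + 1)` is the product of at most `D0` factors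
`x_i ^ (b ^ c)` and of at most `(c + 1) (b - 1)` others. So each `b β` lies in
`W ^ ((k + r) D0 + k (c + 1) b)`. The number of the `β` is
`(D0 + 1) ^ (k + r) b ^ ((c + 1) G + c (k - G))`, `G` = number of good `i`, `G ≥ k + 1 - r`. -/
def Fm2Stmt : Prop :=
  ∀ (E : Type) [Field E] [CharZero E] (k r b c D0 : ℕ) (a : ℕ → ℕ → E) (Φ : MvPolynomial ℕ E)
    (W : Submodule E (MvPolynomial ℕ E)), 2 ≤ b → Minors k r a → Φ ≠ 0 →
    (th E k r Φ).coeff 0 = 0 → Module.Finite E W → 1 ∈ W → (∀ i < k + r, X i ∈ W) →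
    (∀ m < k, ∀ j ≤ c, (X m ^ b ^ j : MvPolynomial ℕ E) ∈ W) →
    (∀ i < k, zz k r a Φ i ∈ W ∧ yy k r (b ^ (c + 1) + 1) a Φ i ∈ W) →
    (D0 + 1) ^ (k + r) * ((b ^ c) ^ k * b ^ (k + 1 - r)) ≤
      Module.finrank E (W ^ ((k + r) * D0 + k * ((c + 1) * b)) : Submodule E (MvPolynomial ℕ E))

/-- Row MA2 (MAIN LEMMA). If `H ≠ 0` has a cheap gradient and vanishes for
`x_(k+j) = ∑ m < k, a_mj x_m ^ (b ^ (c + 1) + 1)`, then
`b ^ (k + 1 - r) ≤ 2 ^ (S + r c) (b + 1) ^ r 3 ^ (k + r)`.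

Proof. `d = b ^ (c + 1) + 1`, `Φ = shf k r d a H`; `φ = shf k r d a` fixes `x_m`, `m < k`, hence the
elements of `pw` and of `L`. MAP with `φ`, `B' = vs ∪ pw ∪ L ∪ M`, `M` the list of the `r` elements
`φ x_(k+j) = x_(k+j) + ∑ a_mj x_m (x_m ^ (b ^ c)) ^ b ∈ (W0) ^ (b + 1)` (`1 ∈ W0`), `l' = []`. Let
`W = sp E B' (l.map φ)`; by CHR the `z_i`, `y_i` lie in `W`. With `N = (k + r) D0 + k (c + 1) b`:
FM2, HB2 with `δ = b + 1`, HB0, BIN (`d := (c + 1) b + 2`, `n = k + r`):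
`(D0+1)^n (b^c)^k b^(k+1-r) ≤ 2^(r c + S) (b+1)^r (b^c)^k 3^n (D0 + (c+1) b + 2)^n`; cancel `(b^c)^k`;
LIM. -/
def Ma2Stmt : Prop :=
  ∀ (E : Type) [Field E] [CharZero E] (k r b c S : ℕ) (a : ℕ → ℕ → E) (H : MvPolynomial ℕ E),
    2 ≤ b → Minors k r a → GradCheap E k r b c S H → H ≠ 0 →
    sub k r (b ^ (c + 1) + 1) a H = 0 →
    b ^ (k + 1 - r) ≤ 2 ^ (S + r * c) * (b + 1) ^ r * 3 ^ (k + r)

/-- Row GRD. The gradient of `stg F` (chain rule).

Proof. `F ∈ sp E (vs E n) l0`, `Ch E (vs E n) l0`, `l0.length ≤ s`. BST with `D = pderiv v`: `l' ++ l0`,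
at most `3 s` products, all `∂_v F` in its span. MAP with `φ = stg k r b c a e`,
`B' = vs E (k + r) ∪ pw E k b c ∪ L`, `L` the list of the `φ x_v`, `k ≤ v < k + r c` (with
`v = k + r j + l`, `j < c`: `φ x_v = ∑ m, a_ml x_m x_m ^ (b ^ (j+1))`, in the square of `sp E pw []`; the
other `φ x_v` are variables `x_i`, `i < k + r`, or constants). Chain rule
`∂_i (φ F) = ∑ v, φ (∂_v F) ∂_i (φ x_v)` (`MvPolynomial.induction_on`): for `i < k` it is
`φ (∂_i F) + ∑ j < c, (b ^ (j+1) + 1) x_i ^ (b ^ (j+1)) (∑ l < r, a_il φ (∂_(k + r j + l) F))`: for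
each `j < c` one more product, in all `k c` products; for `i = k + l` it is `φ (∂_(k + r c + l) F)`. -/
def GrdStmt : Prop :=
  ∀ (E : Type) [Field E] (k r b c s n : ℕ) (a : ℕ → ℕ → E) (e : ℕ → E) (F : MvPolynomial ℕ E),
    1 ≤ r → IsCheap E n s F → GradCheap E k r b c (3 * s + k * c) (stg k r b c a e F)

/-- Row NUM. `q ≥ 5`, `2 ^ q + 1 ≤ 2 ^ q (33 / 32)`, `243 * 33 < 256 * 32`, so the left side is less than
`2 ^ (3 s + 5 r c) 2 ^ (q r) 2 ^ (8 r) ≤ 2 ^ (3 r q)`. -/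
def NumStmt : Prop :=
  ∀ r q s c : ℕ, 1 ≤ r → 3 * s + 5 * r * c + 9 * r ≤ 2 * r * q →
    2 ^ (3 * s + 4 * r * c + r * c) * (2 ^ q + 1) ^ r * 3 ^ (4 * r + r) < (2 ^ q) ^ (4 * r + 1 - r)

/-- Row STG (one stage). `k = 4 r`, `b = 2 ^ q`, `a = va E`.

Proof. `H = stg k r b c a e F`. The substitution `x_(k+j) = e_(k + r c + j)`, `j < r`, of `H` is
`mix k r b c a e F ≠ 0`, so `H ≠ 0`. `sub k r (b ^ (c+1) + 1) a H = mix k r b (c+1) a e F` (both are algebra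
homomorphisms, compare on the variables; `(i - k) / r = c`, `(i - k) % r = i - (k + r c)` in the group
`c`). If this is zero, GRD, MA2 (`S = 3 s + 4 r c`) contradict NUM. `Minors`: Vandermonde
(`Matrix.det_vandermonde_ne_zero_iff`, the `(m + 1 : E)` are different). `2 ≤ 2 ^ q` as `q ≥ 1`. -/
def StgStmt : Prop :=
  ∀ (E : Type) [Field E] [CharZero E] (r q c s n : ℕ) (e : ℕ → E) (F : MvPolynomial ℕ E), 1 ≤ r →
    3 * s + 5 * r * c + 9 * r ≤ 2 * r * q → IsCheap E n s F →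
    mix (4 * r) r (2 ^ q) c (va E) e F ≠ 0 → mix (4 * r) r (2 ^ q) (c + 1) (va E) e F ≠ 0

/-- Row HI2 (the generator hits all products of cheap polynomials).

Proof. For `F ≠ 0` choose `e` with `F(e) ≠ 0` (`E` infinite); `mix .. 0 .. e F ≠ 0` (its value at
`x_i = e_i` is `F(e)`). STG for `c = 0, ..., C - 1`. `F` contains only `x_i`, `i < 4 r + r C`
(`IsCheap`), so `mix .. C .. F = aeval (pt r q C X) F` (`(2 ^ q) ^ n = 2 ^ (q n)`). The product of these is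
not zero; a point where it does not vanish; `pt` depends only on the `4 r` first values. -/
def Hi2Stmt : Prop :=
  ∀ (E : Type) [Field E] [CharZero E] (r q C s : ℕ) (L : List (MvPolynomial ℕ E)), 1 ≤ r →
    3 * s + 5 * r * C + 4 * r ≤ 2 * r * q → (∀ F ∈ L, IsCheap E (4 * r + r * C) s F) →
    L.prod ≠ 0 → ∃ ξ : Fin (4 * r) → E, eval (pt r q C (ext ξ)) L.prod ≠ 0

/-- Row IH2 (a small integer point where a factor does not vanish; copy of `BSH.IhtStmt`). The degree of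
each value of the generator in each seed is at most `2 ^ (q C) + 1`. -/
def Ih2Stmt : Prop :=
  ∀ (E : Type) [Field E] [CharZero E] (r q C Δ : ℕ) (P : MvPolynomial ℕ ℤ), P.totalDegree ≤ Δ →
    ∀ Q : MvPolynomial ℕ E, (∃ ξ : Fin (4 * r) → E, eval (pt r q C (ext ξ)) Q ≠ 0) →
    map (Int.castRingHom E) P ∣ Q →
    ∃ ξ : Fin (4 * r) → ℕ, (∀ j, ξ j ≤ Δ * (2 ^ (q * C) + 1)) ∧
      eval (pt r q C (ext fun j => (ξ j : ℤ))) P ≠ 0

/-- Row SI2 (the size of the values). `4 r (4 r) ^ (r - 1) 2 ^ (L (2 ^ (q C) + 1))`,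
`4 r ≤ 2 ^ (4 r)`. -/
def Si2Stmt : Prop :=
  ∀ (r q C L : ℕ) (ξ : Fin (4 * r) → ℕ), 1 ≤ r → (∀ j, ξ j ≤ 2 ^ L) → ∀ i,
    (pt r q C (ext fun j => (ξ j : ℤ)) i).natAbs ≤ 2 ^ (4 * r ^ 2 + L * (2 ^ (q * C) + 1))

/-- Row TS2 (the test; copy of `BSH.TstStmt`). -/
def Ts2Stmt : Prop :=
  ∀ (E : Type) [Field E] [CharZero E] (r q C : ℕ), 1 ≤ r → ∀ P : MvPolynomial ℕ E → Prop,
    (∀ F, P F → F ≠ 0 → ∃ ξ : Fin (4 * r) → E, eval (pt r q C (ext ξ)) F ≠ 0) →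
    ∀ (Δ b L : ℕ) (G : List Gate), Δ * (2 ^ (q * C) + 1) ≤ 2 ^ L → WellFormed G →
      (poly G = 0 ∨ ((poly G).totalDegree ≤ Δ ∧ Pool.Agent.UO.length (poly G) ≤ 2 ^ b ∧
        ∃ F : MvPolynomial ℕ E, P F ∧ F ≠ 0 ∧ map (Int.castRingHom E) (poly G) ∣ F)) →
      (G ∈ ACIT ↔ ∀ p, p.Prime →
        p ≤ 64 * (b + Δ * (4 * r ^ 2 + L * (2 ^ (q * C) + 1)) + 1) ^ 2 →
        ∀ ξ : Fin (4 * r) → Fin (Δ * (2 ^ (q * C) + 1) + 1),
          tval r q C p (Δ * (2 ^ (q * C) + 1) + 1) ξ G = 0)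

/-- Row DLN. Degree and length of the polynomial of any circuit. (Gate `j`: degree at most `2 ^ j`,
length at most `2 ^ (2 ^ j - 1)`.) -/
def DlnStmt : Prop :=
  ∀ G : List Gate, WellFormed G → (poly G).totalDegree ≤ 2 ^ G.length ∧
    Pool.Agent.UO.length (poly G) ≤ 2 ^ 2 ^ G.length

/-- Row ACT (ALL CIRCUITS). A circuit with at most `r ^ 2` gates in the variables `x_0, ..., x_(r^2-1)`.

Proof. `C = r`, `q = 4 r + 2`, `s = r ^ 2` (`3 s + 5 r C + 4 r = 8 r ^ 2 + 4 r = 2 r q`),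
`4 r + r C ≥ r ^ 2`. `BSH.CirStmt` (at most `r ^ 2` gates `mul`), HI2 with `E = ℚ`, DLN:
`Δ = 2 ^ (r ^ 2)`, `b = 2 ^ (r ^ 2)`, TS2 with `P F := IsCheap ℚ (4 r + r r) (r ^ 2) F`,
`L = 5 r ^ 2 + 2 r + 1` (`Δ (2 ^ (4 r ^ 2 + 2 r) + 1) ≤ 2 ^ L`), and
`64 (b + Δ (4 r ^ 2 + L (2 ^ (4 r ^ 2 + 2 r) + 1)) + 1) ^ 2 ≤ 2 ^ (10 r ^ 2 + 8 r + 20)`. -/
def ActStmt : Prop :=
  ∀ (r : ℕ) (G : List Gate), 1 ≤ r → WellFormed G → G.length ≤ r ^ 2 →
    (∀ v, Gate.var v ∈ G → v < r ^ 2) →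
    (G ∈ ACIT ↔ ∀ p, p.Prime → p ≤ 2 ^ (10 * r ^ 2 + 8 * r + 20) →
      ∀ ξ : Fin (4 * r) → Fin (2 ^ (5 * r ^ 2 + 2 * r + 1) + 1),
        tval r (4 * r + 2) r p (2 ^ (5 * r ^ 2 + 2 * r + 1) + 1) ξ G = 0)

end Pool.Agent.BSI
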